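import Mathlib
import Pool.Agent.H196R3.ParryB
import Pool.Agent.Results.MP_7ab245_nt.LinearRelations

/-!
# Salem numbers whose conjugates satisfy a short rational linear relation
-/

set_option autoImplicit false

namespace Pool.Agent.Results.MP_9599cf_nt.ShortRelations

open Polynomial Module
open Pool.Agent.H196R3.Parry

/-- `t` is a Salem number (as in the frozen statement). -/
def IsSalem (t : ℝ) : Prop :=
  IsIntegral ℤ t ∧ 1 < t ∧
    (∀ z : ℂ, aeval z (minpoly ℚ t) = 0 → z ≠ (t : ℂ) → ‖z‖ ≤ 1) ∧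
    (∃ z : ℂ, aeval z (minpoly ℚ t) = 0 ∧ ‖z‖ = 1)

/-- The numbers `t` for which there is a finite set `S` of at most `k` complex numbers which is
linearly dependent over the rationals, such that every member of `S` is a product of at most `k`
conjugates of `t`, and such that either `S` consists of conjugates of `t` or no quotient of two
distinct members of `S` is a root of unity. -/
def HasRelation (k : ℕ) (t : ℝ) : Prop :=
  ∃ S : Finset ℂ, S.card ≤ k ∧ finrank ℚ (Submodule.span ℚ (S : Set ℂ)) < S.card ∧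
    (∀ x ∈ S, ∃ l : List ℂ, l.length ≤ k ∧ (∀ z ∈ l, aeval z (minpoly ℚ t) = 0) ∧ x = l.prod) ∧
    ((∀ x ∈ S, aeval x (minpoly ℚ t) = 0) ∨
      (∀ x ∈ S, ∀ y ∈ S, x ≠ y → ∀ m : ℕ, 0 < m → x ^ m ≠ y ^ m))

/-- For every `k` only finitely many Salem numbers `t < 2` have a rational linear relation between
at most `k` products of at most `k` conjugates; in particular, if there is one, there is a least
one. -/
theorem result : ∀ k : ℕ,
    {t : ℝ | IsSalem t ∧ t < 2 ∧ HasRelation k t}.Finite ∧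
    ((∃ t : ℝ, IsSalem t ∧ t < 2 ∧ HasRelation k t) →
      ∃ s : ℝ, (IsSalem s ∧ HasRelation k s) ∧ ∀ t : ℝ, IsSalem t → HasRelation k t → s ≤ t) := by
  classical
  obtain ⟨c, hc, h⟩ := Pool.Agent.Results.MP_7ab245_nt.LinearRelations.result
  intro k
  have hfin : {t : ℝ | IsSalem t ∧ t < 2 ∧ HasRelation k t}.Finite := by
    set N : ℕ := ⌈Real.log 2 * ((k : ℝ) * (k * k) * (Real.log (2 * k)) ^ 4) / c⌉₊ with hN
    have hfin1 := Polynomial.finite_mahlerMeasure_le N 2
    have hfin2 : (⋃ p ∈ {p : ℤ[X] | p.natDegree ≤ N ∧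
        (p.map (Int.castRingHom ℂ)).mahlerMeasure ≤ ((2 : NNReal) : ℝ)},
        {t : ℝ | p ≠ 0 ∧ aeval t p = 0}).Finite := by
      refine hfin1.biUnion ?_
      intro p _
      by_cases hp : p = 0
      · refine Set.Finite.subset Set.finite_empty ?_
        rintro t ⟨h1, -⟩
        exact absurd hp h1
      · refine (p.aroots ℝ).toFinset.finite_toSet.subset ?_
        rintro t ⟨h1, h2⟩
        rw [Finset.mem_coe, Multiset.mem_toFinset, mem_aroots]
        exact ⟨h1, h2⟩
    refine hfin2.subset ?_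
    rintro t ⟨⟨hint, ht1, hin, -⟩, ht2, S, hSk, hSr, hSl, htor⟩
    have hae : ∀ z : ℂ, aeval z (minpoly ℚ t) = aeval z (minpoly ℤ t) := by
      intro z
      rw [minpoly.isIntegrallyClosed_eq_field_fractions' ℚ hint, aeval_map_algebraMap]
    have hone : ∀ z : ℂ, aeval z (minpoly ℤ t) = 0 → z ≠ (t : ℂ) → ‖z‖ ≤ 1 :=
      fun z hz hne => hin z (by rw [hae, hz]) hne
    have hperron : ∀ z : ℂ, aeval z (minpoly ℤ t) = 0 → z ≠ (t : ℂ) → ‖z‖ < t :=
      fun z hz hne => (hone z hz hne).trans_lt ht1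
    have hM := mahler_eq ht1 hint hone
    have h1 := h (minpoly ℤ t) (minpoly.irreducible hint) S (fun _ => k) (by
      intro x hx
      obtain ⟨l, hl1, hl2, hl3⟩ := hSl x hx
      have hl2' : ∀ z ∈ l, aeval z (minpoly ℤ t) = 0 := fun z hz => by rw [← hae, hl2 z hz]
      refine ⟨?_, l, hl1, fun z hz => Or.inl (hl2' z hz), hl3⟩
      rw [hl3]
      exact List.prod_ne_zero (fun h0 => conj_ne_zero ht1 hint (hl2' 0 h0) rfl)) (by
      rcases htor with htor | htor
      · intro x hx y hy hxy m hm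
        exact torsion_free ht1 hint hperron (by rw [← hae, htor x hx])
          (by rw [← hae, htor y hy]) hxy hm
      · exact htor)
    rw [hM, min_le_iff] at h1
    rcases h1 with h1 | h1
    · linarith
    rw [← Real.le_log_iff_exp_le (by linarith)] at h1
    have hsum : ∑ x ∈ S, (((fun _ => k) x : ℕ) : ℝ) = S.card * k := by
      simp
    rw [hsum] at h1
    have hcard : 0 < S.card := by omega
    have hkpos : 0 < k := by omega
    have hr : (1 : ℝ) ≤ (S.card : ℝ) - finrank ℚ (Submodule.span ℚ (S : Set ℂ)) := by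
      have h4 : finrank ℚ (Submodule.span ℚ (S : Set ℂ)) + 1 ≤ S.card := hSr
      have h5 : ((finrank ℚ (Submodule.span ℚ (S : Set ℂ)) : ℕ) : ℝ) + 1 ≤ S.card := by
        exact_mod_cast h4
      linarith
    have hm1 : (1 : ℝ) ≤ S.card := by exact_mod_cast hcard
    have hmk : (S.card : ℝ) ≤ k := by exact_mod_cast hSk
    have hk1 : (1 : ℝ) ≤ k := by exact_mod_cast hkpos
    have hlog : 0 < Real.log (2 * S.card) := Real.log_pos (by linarith)
    have hlog2 : Real.log (2 * S.card) ≤ Real.log (2 * k) :=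
      Real.log_le_log (by linarith) (by linarith)
    have hlt : Real.log t ≤ Real.log 2 := Real.log_le_log (by linarith) ht2.le
    have hl2 : 0 < Real.log 2 := Real.log_pos (by norm_num)
    rw [div_le_iff₀ (by positivity)] at h1
    have h2 : c * (minpoly ℤ t).natDegree ≤
        Real.log 2 * ((k : ℝ) * (k * k) * (Real.log (2 * k)) ^ 4) := by
      calc c * (minpoly ℤ t).natDegree = c * (minpoly ℤ t).natDegree * 1 := (mul_one _).symm
        _ ≤ c * (minpoly ℤ t).natDegree *
            ((S.card : ℝ) - finrank ℚ (Submodule.span ℚ (S : Set ℂ))) := by gcongr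
        _ ≤ Real.log t * (S.card * (S.card * k) * Real.log (2 * S.card) ^ 4) := h1
        _ ≤ Real.log 2 * ((k : ℝ) * (k * k) * (Real.log (2 * k)) ^ 4) := by gcongr
    have h3 : (minpoly ℤ t).natDegree ≤ N := by
      have h4 : ((minpoly ℤ t).natDegree : ℝ) ≤
          Real.log 2 * ((k : ℝ) * (k * k) * (Real.log (2 * k)) ^ 4) / c := by
        rw [le_div_iff₀ hc]
        linarith
      exact (Nat.cast_le (α := ℝ)).mp (h4.trans (Nat.le_ceil _))
    refine Set.mem_biUnion (x := minpoly ℤ t) ⟨h3, ?_⟩ ⟨(minpoly.monic hint).ne_zero,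
      minpoly.aeval ℤ t⟩
    rw [hM]
    push_cast
    exact ht2.le
  refine ⟨hfin, ?_⟩
  rintro ⟨t0, ht0⟩
  obtain ⟨s, hs, hmin⟩ := Set.exists_min_image _ id hfin ⟨t0, ht0⟩
  refine ⟨s, ⟨hs.1, hs.2.2⟩, ?_⟩
  intro t ht hkt
  rcases lt_or_ge t 2 with h2 | h2
  · exact hmin t ⟨ht, h2, hkt⟩
  · exact hs.2.1.le.trans h2

end Pool.Agent.Results.MP_9599cf_nt.ShortRelations
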